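import Pool.Agent.H.MP_eb4995_an.A

namespace Pool.Agent.Results.MP_eb4995_an.Counter

open MeasureTheory Filter Topology Set Metric Pool.Agent.Lib.helper10.H10 Pool.Agent.H.MP_eb4995_an
open scoped ENNReal NNReal

section
variable {Y : Type} [TopologicalSpace Y] [Neg Y]

/-- There is a continuous odd map from `F` to the unit sphere of `ℝ^j`. -/
def OddMap (F : Set Y) (j : ℕ) : Prop :=
  ∃ f : F → EuclideanSpace ℝ (Fin j), Continuous f ∧ (∀ p, ‖f p‖ = 1) ∧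
    ∀ p r : F, r.1 = -p.1 → f r = -f p

/-- Nonempty compact symmetric subsets of `S` of genus at least `k`. -/
def Gen (S : Set Y) (k : ℕ) : Set (Set Y) :=
  {F | IsCompact F ∧ F.Nonempty ∧ F ⊆ S ∧ (∀ p ∈ F, -p ∈ F) ∧ ∀ j, 1 ≤ j → j < k → ¬ OddMap F j}

/-- The min-max values of `e` on `S`. -/
noncomputable def LS (S : Set Y) (e : Y → ℝ) (k : ℕ) : ℝ≥0∞ :=
  ⨅ F ∈ Gen S k, ⨆ p ∈ F, ENNReal.ofReal (e p)

end

section
variable {V : Type} [NormedAddCommGroup V] [InnerProductSpace ℝ V] [CompleteSpace V]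
  [MeasurableSpace V] (μ : Measure V)

/-- Pairs `(u, G)` in `L²(V) × L²(V; V)`. -/
abbrev Y := Lp ℝ 2 μ × Lp V 2 μ

/-- The function `u` of a pair. -/
noncomputable def fn (p : Y μ) : V → ℝ := p.1

/-- The field `G` of a pair. -/
noncomputable def gr (p : Y μ) : V → V := p.2

/-- The energy `‖G‖²`. -/
noncomputable def en (p : Y μ) : ℝ := ‖p.2‖ ^ 2

/-- Test functions `C_0^∞(Ω)`. -/
def Tst (Ω : Set V) (φ : V → ℝ) : Prop :=
  ContDiff ℝ (⊤ : ℕ∞) φ ∧ HasCompactSupport φ ∧ tsupport φ ⊆ Ω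

/-- The pairs `(φ, ∇φ)`, `φ` a test function. -/
def T0 (Ω : Set V) : Set (Y μ) :=
  {p | ∃ φ, Tst Ω φ ∧ fn μ p =ᵐ[μ] φ ∧ gr μ p =ᵐ[μ] gradient φ}

/-- `H^1_0(Ω)`: the closure of `T0` in `L² × L²`. -/
def H (Ω : Set V) : Set (Y μ) := closure (T0 μ Ω)

/-- The unit `L^q` sphere of `H^1_0(Ω)`. -/
def Sq (Ω : Set V) (q : ℝ) : Set (Y μ) :=
  {p | p ∈ H μ Ω ∧ eLpNorm (fn μ p) (ENNReal.ofReal q) μ = 1}

/-- The `q`-spectrum. -/
def Spec (Ω : Set V) (q : ℝ) : Set ℝ :=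
  {l | ∃ p ∈ H μ Ω, ¬ fn μ p =ᵐ[μ] 0 ∧ ∀ φ, Tst Ω φ →
    ∫ x, inner ℝ (gr μ p x) (gradient φ x) ∂μ =
      l * (eLpNorm (fn μ p) (ENNReal.ofReal q) μ).toReal ^ (2 - q) *
        ∫ x, |fn μ p x| ^ (q - 2) * fn μ p x * φ x ∂μ}

/-- The Lusternik-Schnirelman values. -/
noncomputable def lamLS (Ω : Set V) (q : ℝ) (k : ℕ) : ℝ≥0∞ := LS (Sq μ Ω q) (en μ) k

end

/-- The `q`-spectrum in `ℝ³` with Lebesgue measure. -/
def Spec3 (Ω : Set (EuclideanSpace ℝ (Fin 3))) (q : ℝ) : Set ℝ := Spec volume Ω q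

/-- The Lusternik-Schnirelman values in `ℝ³` with Lebesgue measure. -/
noncomputable def lam3 (Ω : Set (EuclideanSpace ℝ (Fin 3))) (q : ℝ) (k : ℕ) : ℝ≥0∞ :=
  lamLS volume Ω q k

attribute [local instance] fact4

lemma four : ENNReal.ofReal 4 = ((4 : ℝ≥0) : ℝ≥0∞) := by simp

lemma J_norm {Ω : Set (E 3)} {J : Hs Ω →L[ℝ] L4} (hJ : ∀ p, J p =ᵐ[volume] p.1.1) (p : Hs Ω) :
    eLpNorm p.1.1 (ENNReal.ofReal 4) volume = ENNReal.ofReal ‖J p‖ := by
  rw [four, ← eLpNorm_congr_ae (hJ p), ofReal_norm, Lp.enorm_def]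

lemma posneg (f : L4) : ‖Lp.posPart f‖ ^ 4 + ‖Lp.posPart (-f)‖ ^ 4 = ‖f‖ ^ 4 := by
  have i : ∀ g : L4, Integrable fun x => g x ^ 4 := fun g => by
    have := (Lp.memLp g).integrable_norm_rpow (by simp) (by simp)
    simpa [(by decide : Even 4).pow_abs] using this
  rw [L4_norm, L4_norm, L4_norm, ← integral_add (i _) (i _)]
  refine integral_congr_ae ?_
  filter_upwards [Lp.coeFn_posPart f, Lp.coeFn_posPart (-f), Lp.coeFn_neg f] with x h1 h2 h3
  rw [h1, h2, h3, Pi.neg_apply]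
  rcases le_total (f x) 0 with h | h
  · rw [max_eq_right h, max_eq_left (by linarith)]; ring
  · rw [max_eq_left h, max_eq_right (by linarith)]; ring

lemma lower {Ω : Set (E 3)} (hΩ : Bornology.IsBounded Ω) {l : ℝ} (hl : 0 ≤ l) (hI : Ineq Ω l)
    {k : ℕ} (hk : 2 ≤ k) : ENNReal.ofReal (7 / 5 * l) ≤ lamLS volume Ω 4 k := by
  obtain ⟨J, -, hJ, -⟩ := exists_J (N := 3) (by norm_num) hΩ 4 (by norm_num)
  refine le_iInf₂ fun F hF => ?_
  obtain ⟨-, -, h1, -, h2⟩ := hF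
  let ι : F → Hs Ω := fun p => ⟨p.1, (h1 p.2).1⟩
  have hι : Continuous ι := continuous_subtype_val.subtype_mk _
  have hc : Continuous fun f : L4 => Lp.posPart f := Lp.continuous_posPart
  let Φ : F → ℝ := fun p => ‖Lp.posPart (J (ι p))‖ - ‖Lp.posPart (J (-ι p))‖
  have hΦ : Continuous Φ :=
    (hc.comp (J.continuous.comp hι)).norm.sub (hc.comp (J.continuous.comp hι.neg)).norm
  obtain ⟨p, hp⟩ : ∃ p, Φ p = 0 := by
    by_contra h
    push Not at h
    refine h2 1 le_rfl (by omega) ⟨fun p => (Φ p / |Φ p|) • EuclideanSpace.single 0 (1 : ℝ),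
      (hΦ.div hΦ.abs fun p => abs_ne_zero.2 (h p)).smul continuous_const, fun p => ?_,
      fun p r hr => ?_⟩
    · simp [norm_smul, h p]
    · have e : ι r = -ι p := Subtype.ext hr
      have e2 : Φ r = -Φ p := by simp only [Φ, e, neg_neg, neg_sub]
      simp only [e2, abs_neg, neg_div, neg_smul]
  refine le_trans (ENNReal.ofReal_le_ofReal ?_) (le_iSup₂_of_le p.1 p.2 le_rfl)
  have a1 := hI.split hl hJ (ι p)
  have a2 := posneg (J (ι p))
  have a3 : ‖J (ι p)‖ = 1 := by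
    have := (h1 p.2).2
    unfold fn at this
    rwa [J_norm hJ (ι p), ENNReal.ofReal_eq_one] at this
  rw [a3, ← map_neg] at a2
  have a4 : ‖Lp.posPart (J (-ι p))‖ = ‖Lp.posPart (J (ι p))‖ := (sub_eq_zero.1 hp).symm
  rw [a4] at a1 a2
  have a5 : 7 / 10 ≤ ‖Lp.posPart (J (ι p))‖ ^ 2 := by
    generalize ‖Lp.posPart (J (ι p))‖ = a at a2
    nlinarith [sq_nonneg a]
  change 7 / 5 * l ≤ ‖(ι p).1.2‖ ^ 2
  generalize ‖Lp.posPart (J (ι p))‖ ^ 2 = a at a1 a5
  nlinarith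

lemma upper {Ω : Set (E 3)} (hΩ : Bornology.IsBounded Ω) {l : ℝ} (hl : 0 < l) (hI : ¬ Ineq Ω l) :
    lamLS volume Ω 4 1 < ENNReal.ofReal l := by
  obtain ⟨J, -, hJ, -⟩ := exists_J (N := 3) (by norm_num) hΩ 4 (by norm_num)
  unfold Ineq at hI
  push Not at hI
  obtain ⟨φ, hφ, h⟩ := hI
  have h0 : ∫ x, φ x ^ 4 ≠ 0 := by
    intro h0
    rw [h0, mul_zero] at h
    nlinarith
  obtain ⟨c, h1, h2, h3⟩ := normalize hφ h0
  set P := pair (hφ.smul c) with hP
  have hc : 0 < c ^ 4 := by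
    have : c ≠ 0 := by rintro rfl; simp at h1
    positivity
  have p1 : ‖P.1.2‖ ^ 2 < l := by
    rw [pair_norm_snd, h3]
    refine lt_of_pow_lt_pow_left₀ 2 hl.le ?_
    calc (c ^ 2 * Dt φ) ^ 2 = c ^ 4 * Dt φ ^ 2 := by ring
      _ < c ^ 4 * (l ^ 2 * ∫ x, φ x ^ 4) := by gcongr
      _ = l ^ 2 * (c ^ 4 * ∫ x, φ x ^ 4) := by ring
      _ = _ := by rw [h1, mul_one]
  have p2 : ‖J P‖ = 1 := by
    have := J_sq hJ (hφ.smul c)
    rw [h2, Real.sqrt_one] at this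
    exact (pow_eq_one_iff_of_nonneg (norm_nonneg _) two_ne_zero).1 this
  have hF : ({P.1, -P.1} : Set (X 3)) ∈ Gen (Sq volume Ω 4) 1 := by
    refine ⟨toFinite _ |>.isCompact, insert_nonempty _ _, ?_, ?_, fun j _ _ => by omega⟩
    · rintro _ (rfl | rfl)
      · exact ⟨P.2, by unfold fn; rw [J_norm hJ, p2]; simp⟩
      · refine ⟨(-P).2, ?_⟩
        have := J_norm hJ (-P)
        rw [map_neg, norm_neg, p2] at this
        simpa [fn] using this
    · rintro _ (rfl | rfl) <;> simp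
  refine lt_of_le_of_lt (iInf₂_le _ hF) (lt_of_le_of_lt (iSup₂_le ?_)
    ((ENNReal.ofReal_lt_ofReal_iff hl).2 p1))
  rintro _ (rfl | rfl) <;> simp [en]

theorem result : ∃ q : ℝ, 2 < q ∧ q < 6 ∧
    ∃ Ω : Set (EuclideanSpace ℝ (Fin 3)), IsOpen Ω ∧ Bornology.IsBounded Ω ∧
      ∃ l ∈ Spec3 Ω q, 0 < l ∧ ∀ k, 1 ≤ k → lam3 Ω q k ≠ ENNReal.ofReal l := by
  set c : E 3 := EuclideanSpace.single 0 10 with hc
  have hB : Disjoint (ball c (16 / 9 * 1)) (closedBall (0 : E 3) 2) :=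
    ball_disjoint_closedBall (by simp [hc]; norm_num)
  have hb : Bornology.IsBounded (ball c (16 / 9 * 1) ∪ ball (0 : E 3) 1) :=
    isBounded_ball.union isBounded_ball
  obtain ⟨J, -, hJ, -⟩ := exists_J (N := 3) (Ω := ball 0 1) (by norm_num) isBounded_ball 4
    (by norm_num)
  obtain ⟨l, hl, hI, p, p1, p2⟩ := minimizer isBounded_ball hJ exists_test
  refine ⟨4, by norm_num, by norm_num, ball c (16 / 9 * 1) ∪ ball 0 1,
    isOpen_ball.union isOpen_ball, hb, l, ⟨p.1, H10_mono subset_union_right p.2, ?_, ?_⟩, hl,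
    fun k hk => ?_⟩
  · intro h0
    have := J_norm hJ p
    unfold fn at h0
    rw [p1, eLpNorm_congr_ae h0] at this
    simp at this
  · intro φ hφ
    obtain ⟨a, b, ha, hb, rfl⟩ := split2 hB hφ
    have hz : ∀ x ∈ ball (0 : E 3) 1, a x = 0 ∧ fderiv ℝ a x = 0 := fun x hx =>
      ha.zero_off fun hx' => disjoint_left.1 hB hx'
        (ball_subset_closedBall.trans (closedBall_subset_closedBall one_le_two) hx)
    have e1 : ∫ x, inner ℝ (p.1.2 x) (gradient (a + b) x)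
        = ∫ x, inner ℝ (p.1.2 x) (gradient b x) := by
      refine integral_congr_ae ?_
      filter_upwards [zero_off p] with x hx
      by_cases h : x ∈ ball (0 : E 3) 1
      · simp [gradient, fderiv_add (ha.diff x) (hb.diff x), (hz x h).2]
      · simp [(hx h).2]
    have e2 : ∫ x, |p.1.1 x| ^ ((4 : ℝ) - 2) * p.1.1 x * (a + b) x = ∫ x, p.1.1 x ^ 3 * b x := by
      refine integral_congr_ae ?_
      filter_upwards [zero_off p] with x hx
      rw [show (4 : ℝ) - 2 = (2 : ℕ) by norm_num, Real.rpow_natCast, sq_abs]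
      by_cases h : x ∈ ball (0 : E 3) 1
      · rw [Pi.add_apply, (hz x h).1]; ring
      · rw [(hx h).1]; ring
    unfold fn gr
    rw [e1, e2, J_norm hJ, p1, euler hJ hl hI p1 p2 hb]
    simp
  · rcases hk.eq_or_lt with rfl | hk
    · refine (upper hb hl fun h => ?_).ne
      have h1 : Ineq (ball c (16 / 9 * 1)) l := fun φ hφ => h φ (hφ.mono subset_union_left)
      have h2 := h1.scale (c' := 0) (r := 9 / 16) (l' := 4 / 3 * l) (by norm_num) (le_of_eq (by ring))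
      rw [show (9 / 16 * (16 / 9 * 1) : ℝ) = 1 by norm_num] at h2
      have h3 := h2.H (by positivity) hJ p
      rw [p1, p2] at h3
      linarith
    · have h1 : Ineq (ball c (16 / 9 * 1)) (3 / 4 * l) :=
        hI.scale (by norm_num) (le_of_eq (by ring))
      have h2 : Ineq (ball (0 : E 3) 1) (3 / 4 * l) := fun φ hφ => by
        have := hI φ hφ
        have h0 : 0 ≤ ∫ x, φ x ^ 4 := integral_nonneg fun x => by positivity
        nlinarith [mul_nonneg (sq_nonneg l) h0]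
      refine ne_of_gt (lt_of_lt_of_le ?_ (lower hb (by positivity) (h1.union hB h2) hk))
      exact (ENNReal.ofReal_lt_ofReal_iff (by positivity)).2 (by linarith)

end Pool.Agent.Results.MP_eb4995_an.Counter
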